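import Pool.Agent.X217.NS.Ker
import Pool.Agent.TH841.NO.Fin
import Pool.Agent.TH841.LS.Main6
import Pool.Agent.TH841.LS.Fin
import Pool.Agent.Y676.IS.Cnt

/-!
# The normal order of the 2-rank of the Tate-Shafarevich group of the 2-isogenous curve
-/

set_option autoImplicit false
set_option linter.unusedSectionVars false

namespace Pool.Agent.X217.NS

open Finset WeierstrassCurve Polynomial

open Pool.Agent.TH841.SH.D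

open Pool.Agent.TH841.LS (WI DG sc)

open Pool.Agent.TH841.PT (EQ Irr)

open Pool.Agent.TH841.TR (UP allf Bal)

open Pool.Agent.TH841.NO (SQ fo)

open Pool.Agent.Y676.IS (tri)

/-- the bounds for the curve and its quotient -/
def GoodC (R : ℕ) (κ δ l : ℝ) (A B : ℤ) : Prop :=
  A ≠ 0 ∧ B ≠ 0 ∧ A ≠ B ∧
  (∀ j : ℕ, Finite (ShaTor (EQ A B) (2 ^ j)) ∧ Finite (ShaTor (WI A B) (2 ^ j))) ∧
  (∀ j : ℕ, 1 ≤ j → (2 : ℝ) ^ rk (EQ A B) *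
    (Nat.card (ShaTor (EQ A B) (2 ^ j)) : ℝ) ^ ((1 : ℝ) / j) ≤ 2 ^ R) ∧
  ∀ j : ℕ, 1 ≤ j → (κ - δ) * l ≤ Real.logb 2 (Nat.card (ShaTor (WI A B) (2 ^ j))) ∧
    Real.logb 2 (Nat.card (ShaTor (WI A B) (2 ^ j))) ≤ (κ + δ) * l + R * j

theorem goodC_of {R : ℕ} {κ δ l : ℝ} {A B : ℤ} (hA : A ≠ 0) (hB : B ≠ 0) (hAB : A ≠ B)
    (h1 : ∀ j : ℕ, Finite (ShaTor (EQ A B) (2 ^ j)))
    (h2 : ∀ j : ℕ, 1 ≤ j → (2 : ℝ) ^ rk (EQ A B) *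
      (Nat.card (ShaTor (EQ A B) (2 ^ j)) : ℝ) ^ ((1 : ℝ) / j) ≤ 2 ^ R)
    (h3 : ∃ k : ℕ, (κ - δ) * l ≤ k ∧ ∃ φ : (Fin k → ZMod 2) →+ Sha (WI A B),
      Function.Injective φ)
    (h4 : (fo (-(A + B)) (A * B) : ℝ) ≤ (κ + δ) * l) : GoodC R κ δ l A B := by
  have h5 := fun j => sha_bound hAB hA hB (2 ^ j) (h1 j)
  refine ⟨hA, hB, hAB, fun j => ⟨h1 j, (h5 j).1⟩, h2, fun j hj => ⟨?_, ?_⟩⟩
  · obtain ⟨k, hk, φ, hφ⟩ := h3
    have h6 := le_card hj (h5 j).1 φ hφ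
    refine hk.trans ?_
    have h7 : (2 : ℝ) ^ (k : ℝ) ≤ (Nat.card (ShaTor (WI A B) (2 ^ j)) : ℝ) := by
      rw [Real.rpow_natCast]
      exact_mod_cast h6
    rw [Real.le_logb_iff_rpow_le (by norm_num) (lt_of_lt_of_le (by positivity) h7)]
    exact h7
  · have hfin := h1 j
    have hne : Nonempty (ShaTor (EQ A B) (2 ^ j)) := ⟨⟨0, smul_zero _⟩⟩
    have hc1 : (1 : ℝ) ≤ (Nat.card (ShaTor (EQ A B) (2 ^ j)) : ℝ) := by
      exact_mod_cast Nat.card_pos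
    have hfin' := (h5 j).1
    have hne' : Nonempty (ShaTor (WI A B) (2 ^ j)) := ⟨⟨0, smul_zero _⟩⟩
    have hc2 : (1 : ℝ) ≤ (Nat.card (ShaTor (WI A B) (2 ^ j)) : ℝ) := by
      exact_mod_cast Nat.card_pos
    have hj0 : (0 : ℝ) < j := by exact_mod_cast hj
    have h6 : (Nat.card (ShaTor (EQ A B) (2 ^ j)) : ℝ) ^ ((1 : ℝ) / j) ≤ 2 ^ R := by
      refine le_trans ?_ (h2 j hj)
      exact le_mul_of_one_le_left (by positivity) (one_le_pow₀ (by norm_num))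
    have h7 : (Nat.card (ShaTor (EQ A B) (2 ^ j)) : ℝ) ≤ (2 : ℝ) ^ ((R : ℝ) * j) := by
      have h8 := Real.rpow_le_rpow (by positivity) h6 hj0.le
      rw [← Real.rpow_mul (by positivity), one_div, inv_mul_cancel₀ hj0.ne', Real.rpow_one] at h8
      refine h8.trans (le_of_eq ?_)
      rw [Real.rpow_mul (by norm_num : (0 : ℝ) ≤ 2), Real.rpow_natCast (2 : ℝ) R]
    have h9 : (Nat.card (ShaTor (WI A B) (2 ^ j)) : ℝ) ≤
        (2 : ℝ) ^ ((fo (-(A + B)) (A * B) : ℝ) + R * j) := by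
      rw [Real.rpow_add (by norm_num), Real.rpow_natCast]
      have h10 : (Nat.card (ShaTor (WI A B) (2 ^ j)) : ℝ) ≤
          2 ^ fo (-(A + B)) (A * B) * (Nat.card (ShaTor (EQ A B) (2 ^ j)) : ℝ) := by
        exact_mod_cast (h5 j).2
      exact h10.trans (mul_le_mul_of_nonneg_left h7 (by positivity))
    have h11 : Real.logb 2 (Nat.card (ShaTor (WI A B) (2 ^ j))) ≤
        (fo (-(A + B)) (A * B) : ℝ) + R * j := by
      rw [Real.logb_le_iff_le_rpow (by norm_num) (by linarith)]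
      exact h9
    linarith

section

variable {n : Fin 3 → ℕ} {m : ℕ}

open Classical in
/-- pencils -/
theorem pencil (a : Fin 3 → ℤ) (f : ∀ k : Fin 3, Fin (n k) → ℤ[X]) (c : ℤ) (g : Fin m → ℤ[X])
    (ha : ∀ k, a k ≠ 0) (hc : c ≠ 0) (hf : Irr (allf g f))
    (hU : UP a f 0 - UP a f 1 = UP a f 2)
    (hn : (∀ k, 2 * n k < n 0 + n 1 + n 2) ∨ Bal (DG c g) a f) (δ ε : ℝ) (L : ℕ)
    (hδ : 0 < δ) (hε : 0 < ε) :
    ∃ R M0 : ℕ, ∀ (N : ℤ) (M : ℕ), M0 ≤ M → |N| ≤ (M : ℤ) ^ L →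
      (((Ioc N (N + (M : ℤ))).filter (fun t => ¬ GoodC R (sc a f c g) δ (Real.log (Real.log M))
        ((DG c g * UP a f 0).eval t) ((DG c g * UP a f 1).eval t))).card : ℝ) ≤ ε * M := by
  have hcntx := Pool.Agent.TH841.LS.CNTXf.cntx_of Pool.Agent.TH841.LS.TKXf.tkx
  obtain ⟨R1, M1, g1⟩ := Pool.Agent.TH841.LS.large5 hcntx Pool.Agent.TH841.PM.tavz
    Pool.Agent.TH841.TR.tav3x a f c g 1 ha hc one_ne_zero hf hU hn δ (ε / 2) L hδ (by positivity)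
  obtain ⟨R2, M2, g2⟩ := Pool.Agent.TH841.NO.norder Pool.Agent.TH841.NO.QULf.qul
    Pool.Agent.TH841.NO.QUMf.qum Pool.Agent.TH841.NO.LWAf.lwa Pool.Agent.TH841.NO.LWBf.lwb
    Pool.Agent.TH841.NO.LWBf.lwc Pool.Agent.TH841.NO.PRf.pra Pool.Agent.TH841.NO.PRf.prb
    Pool.Agent.TH841.NO.LIN2f.lin2 hcntx
    (Pool.Agent.TH841.NO.CNTUf.cntu_of Pool.Agent.TH841.LS.TKXf.tkx Pool.Agent.TH841.NO.TKLf.tkl)
    Pool.Agent.TH841.PM.tavz Pool.Agent.TH841.TR.tav3x a f c g ha hc hf hU hn δ (ε / 2) L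
    hδ (by positivity)
  refine ⟨R1 + 1, M1 + M2, fun N M hM hN => ?_⟩
  have b1 := g1 N M (by omega) hN
  have b2 := g2 N M (by omega) hN
  set S1 := (Ioc N (N + (M : ℤ))).filter (fun t => ¬ ∀ A B : ℤ,
        A = (DG c g * 1 ^ 2 * UP a f 0).eval t →
        B = (DG c g * 1 ^ 2 * UP a f 1).eval t → A ≠ 0 ∧ B ≠ 0 ∧ A ≠ B ∧
        (∀ j : ℕ, Finite (ShaTor (EQ A B) (2 ^ j))) ∧
        (∀ j : ℕ, 1 ≤ j → (2 : ℝ) ^ rk (EQ A B) *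
          (Nat.card (ShaTor (EQ A B) (2 ^ j)) : ℝ) ^ ((1 : ℝ) / j) ≤ 2 ^ (R1 + 1)) ∧
        ∃ k : ℕ, (sc a f c g - δ) * Real.log (Real.log M) ≤ k ∧
        ∃ φ : (Fin k → ZMod 2) →+ Sha (WI A B), Function.Injective φ) with hS1
  set S2 := (Ioc N (N + (M : ℤ))).filter (fun t => ¬ ∀ A B : ℤ,
        A = (DG c g * UP a f 0).eval t →
        B = (DG c g * UP a f 1).eval t → A ≠ 0 ∧ B ≠ 0 ∧ A ≠ B ∧
        (sc a f c g - δ) * Real.log (Real.log M) ≤ fo (-(A + B)) (A * B) ∧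
        (fo (-(A + B)) (A * B) : ℝ) ≤ (sc a f c g + δ) * Real.log (Real.log M) ∧
        fo (2 * (A + B)) ((A - B) ^ 2) ≤ R2 ∧ rk (EQ A B) ≤ R2) with hS2
  have hsub : (Ioc N (N + (M : ℤ))).filter (fun t => ¬ GoodC (R1 + 1) (sc a f c g) δ
      (Real.log (Real.log M)) ((DG c g * UP a f 0).eval t) ((DG c g * UP a f 1).eval t)) ⊆
      S1 ∪ S2 := by
    intro t ht
    rw [mem_filter] at ht
    by_contra hcon
    rw [mem_union, not_or, hS1, hS2, mem_filter, mem_filter] at hcon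
    obtain ⟨c1, c2⟩ := hcon
    apply ht.2
    have d1 := not_not.1 (fun h => c1 ⟨ht.1, h⟩)
    have d2 := not_not.1 (fun h => c2 ⟨ht.1, h⟩)
    have e0 : ∀ k, DG c g * 1 ^ 2 * UP a f k = DG c g * UP a f k := fun k => by
      rw [one_pow, mul_one]
    rw [e0, e0] at d1
    obtain ⟨l1, l2, l3, l4, l5, l6⟩ := d1 _ _ rfl rfl
    obtain ⟨-, -, -, -, m1, -, -⟩ := d2 _ _ rfl rfl
    exact goodC_of l1 l2 l3 l4 l5 l6 m1
  have hcard : (((Ioc N (N + (M : ℤ))).filter (fun t => ¬ GoodC (R1 + 1) (sc a f c g) δ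
      (Real.log (Real.log M)) ((DG c g * UP a f 0).eval t)
      ((DG c g * UP a f 1).eval t))).card : ℝ) ≤ S1.card + S2.card := by
    exact_mod_cast (card_le_card hsub).trans (card_union_le _ _)
  linarith

end

open Classical in
/-- coprime pairs in short squares, one quotient -/
theorem pairs1 (D : ℤ) (hD : D ≠ 0) (δ ε : ℝ) (L : ℕ) (hδ : 0 < δ) (hε : 0 < ε) :
    ∃ R X0 : ℕ, ∀ (N1 N2 : ℤ) (X : ℕ), X0 ≤ X → N1.natAbs ≤ X ^ L → N2.natAbs ≤ X ^ L →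
      (((Icc 1 X ×ˢ Icc 1 X).filter (fun t : ℕ × ℕ =>
        IsCoprime (N1 + (t.1 : ℤ)) (N2 + (t.2 : ℤ)) ∧
        ¬ GoodC R (3 / 2) δ (Real.log (Real.log X)) (D * (N1 + (t.1 : ℤ)))
          (D * (N2 + (t.2 : ℤ))))).card : ℝ) ≤ ε * X ^ 2 := by
  have havg := Pool.Agent.W307.FK.avgn_of Pool.Agent.W307.FK.expf
  obtain ⟨R1, X1, g1⟩ := Pool.Agent.TH841.LS.large6 Pool.Agent.TH841.LS.CNT2Xf.cnt2x havg D hD δ
    (ε / 2) L hδ (by positivity)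
  obtain ⟨R2, X2, g2⟩ := Pool.Agent.TH841.NO.norder2 Pool.Agent.TH841.NO.QULf.qul
    Pool.Agent.TH841.NO.QUMf.qum Pool.Agent.TH841.NO.LWAf.lwa Pool.Agent.TH841.NO.LWBf.lwb
    Pool.Agent.TH841.NO.LWBf.lwc Pool.Agent.TH841.NO.PRf.pra Pool.Agent.TH841.NO.PRf.prb
    Pool.Agent.TH841.NO.LIN2f.lin2 Pool.Agent.TH841.LS.CNT2Xf.cnt2x
    Pool.Agent.TH841.NO.CNTU2f.cntu2 havg D hD δ (ε / 2) L hδ (by positivity)
  refine ⟨R1 + 1, X1 + X2, fun N1 N2 X hX hN1 hN2 => ?_⟩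
  have b1 := g1 N1 N2 X (by omega) hN1 hN2
  have b2 := g2 N1 N2 X (by omega) hN1 hN2
  set S1 := (Icc 1 X ×ˢ Icc 1 X).filter (fun t : ℕ × ℕ =>
        IsCoprime (N1 + (t.1 : ℤ)) (N2 + (t.2 : ℤ)) ∧
        ¬ ∀ A B : ℤ, A = D * (N1 + (t.1 : ℤ)) → B = D * (N2 + (t.2 : ℤ)) →
        A ≠ 0 ∧ B ≠ 0 ∧ A ≠ B ∧
        (∀ j : ℕ, Finite (ShaTor (EQ A B) (2 ^ j))) ∧
        (∀ j : ℕ, 1 ≤ j → (2 : ℝ) ^ rk (EQ A B) *
          (Nat.card (ShaTor (EQ A B) (2 ^ j)) : ℝ) ^ ((1 : ℝ) / j) ≤ 2 ^ (R1 + 1)) ∧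
        ∃ k : ℕ, (3 / 2 - δ) * Real.log (Real.log X) ≤ k ∧
        ∃ φ : (Fin k → ZMod 2) →+ Sha (WI A B), Function.Injective φ) with hS1
  set S2 := (Icc 1 X ×ˢ Icc 1 X).filter (fun t : ℕ × ℕ =>
        IsCoprime (N1 + (t.1 : ℤ)) (N2 + (t.2 : ℤ)) ∧
        ¬ ∀ A B : ℤ, A = D * (N1 + (t.1 : ℤ)) → B = D * (N2 + (t.2 : ℤ)) →
        A ≠ 0 ∧ B ≠ 0 ∧ A ≠ B ∧
        (3 / 2 - δ) * Real.log (Real.log X) ≤ fo (-(A + B)) (A * B) ∧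
        (fo (-(A + B)) (A * B) : ℝ) ≤ (3 / 2 + δ) * Real.log (Real.log X) ∧
        fo (2 * (A + B)) ((A - B) ^ 2) ≤ R2 ∧ rk (EQ A B) ≤ R2) with hS2
  have hsub : (Icc 1 X ×ˢ Icc 1 X).filter (fun t : ℕ × ℕ =>
        IsCoprime (N1 + (t.1 : ℤ)) (N2 + (t.2 : ℤ)) ∧
        ¬ GoodC (R1 + 1) (3 / 2) δ (Real.log (Real.log X)) (D * (N1 + (t.1 : ℤ)))
          (D * (N2 + (t.2 : ℤ)))) ⊆ S1 ∪ S2 := by
    intro t ht
    rw [mem_filter] at ht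
    obtain ⟨ht1, ht2, ht3⟩ := ht
    by_contra hcon
    rw [mem_union, not_or, hS1, hS2, mem_filter, mem_filter] at hcon
    obtain ⟨c1, c2⟩ := hcon
    apply ht3
    have d1 := not_not.1 (fun h => c1 ⟨ht1, ht2, h⟩)
    have d2 := not_not.1 (fun h => c2 ⟨ht1, ht2, h⟩)
    obtain ⟨l1, l2, l3, l4, l5, l6⟩ := d1 _ _ rfl rfl
    obtain ⟨-, -, -, -, m1, -, -⟩ := d2 _ _ rfl rfl
    exact goodC_of l1 l2 l3 l4 l5 l6 m1
  have hcard : (((Icc 1 X ×ˢ Icc 1 X).filter (fun t : ℕ × ℕ =>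
        IsCoprime (N1 + (t.1 : ℤ)) (N2 + (t.2 : ℤ)) ∧
        ¬ GoodC (R1 + 1) (3 / 2) δ (Real.log (Real.log X)) (D * (N1 + (t.1 : ℤ)))
          (D * (N2 + (t.2 : ℤ))))).card : ℝ) ≤ S1.card + S2.card := by
    exact_mod_cast (card_le_card hsub).trans (card_union_le _ _)
  linarith

end Pool.Agent.X217.NS
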