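import Pool.Agent.Y676.IS.Fin
import Pool.Agent.Y497.IS.LCB
import Pool.Agent.Y500.IS.LQU

/-!
# The kernel of the 2-isogeny on the Tate-Shafarevich groups
-/

set_option autoImplicit false
set_option linter.unusedSectionVars false

namespace Pool.Agent.X217.NS

open WeierstrassCurve

open Pool.Agent.TH841.SH.D

open Pool.Agent.TH841.LS (WI LocI T0 coc)

open Pool.Agent.TH841.PT (EQ isR_EQ)

open Pool.Agent.TH841.NO (SQ fo)

open Pool.Agent.Y676.IS

/-- the number of elements of a set from the kernel and the image -/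
theorem card_le_of_ker {G H : Type} [AddCommGroup G] [AddCommGroup H] (f : G →+ H)
    (hk : Finite f.ker) {S : Set G} {T : Set H} (hT : T.Finite) (hST : ∀ x ∈ S, f x ∈ T) :
    Finite S ∧ Nat.card S ≤ Nat.card f.ker * Nat.card T := by
  classical
  have hTf : Finite T := hT
  let pick : H → G := fun z => if h : ∃ x ∈ S, f x = z then h.choose else 0
  have hpick : ∀ x ∈ S, f (pick (f x)) = f x := by
    intro x hx
    have h : ∃ y ∈ S, f y = f x := ⟨x, hx, rfl⟩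
    simp only [pick]
    rw [dif_pos h]
    exact h.choose_spec.2
  let g : S → f.ker × T := fun x => (⟨x.1 - pick (f x.1), by
    rw [AddMonoidHom.mem_ker, map_sub, hpick x.1 x.2, sub_self]⟩, ⟨f x.1, hST _ x.2⟩)
  have hg : Function.Injective g := by
    intro x y hxy
    have h1 : f x.1 = f y.1 := congrArg (fun z => (z.2 : H)) hxy
    have h2 : x.1 - pick (f x.1) = y.1 - pick (f y.1) := congrArg (fun z => (z.1 : G)) hxy
    rw [h1] at h2
    exact Subtype.ext (sub_left_injective h2)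
  refine ⟨Finite.of_injective g hg, ?_⟩
  rw [← Nat.card_prod]
  exact Nat.card_le_card_of_injective g hg

theorem mem_SQ {A B : ℤ} (h : A ≠ B) (hA : A ≠ 0) (hB : B ≠ 0) {d : ℤ} (hsq : Squarefree d)
    (hc : coc h d ∈ shaCoc (WI A B)) : d ∈ SQ (-(A + B)) (A * B) :=
  Pool.Agent.Y500.IS.lqu A B d hA hB h hsq
    (Pool.Agent.Y497.IS.lcb A B h d hA hB hsq.ne_zero ℝ hc.2.2)
    (fun p _ => Pool.Agent.Y497.IS.lcb A B h d hA hB hsq.ne_zero ℚ_[p] (hc.2.1 p))

attribute [-instance] DivisionRing.toRatAlgebra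

/-- the elements of the kernel of the isogeny on the Tate-Shafarevich groups -/
theorem ker_coc {A B : ℤ} (h : A ≠ B) (hA : A ≠ 0) (hB : B ≠ 0)
    (ψ : NH (WI A B) (EQ A B)) (φ : NH (EQ A B) (WI A B))
    (h2 : ∀ (L : Type) [Field L] [Algebra ℚ L] (P : Pt (EQ A B) L), ψ.f L (φ.f L P) = P + P)
    (h3 : ∀ (L : Type) [Field L] [Algebra ℚ L] (P : Pt (WI A B) L),
      ψ.f L P = 0 → P = 0 ∨ P = T0 h L) (x : Sha (WI A B)) (hz : ψ.sha x = 0) :
    ∃ d ∈ SQ (-(A + B)) (A * B), ∃ hd : coc h d ∈ shaCoc (WI A B),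
      cls (WI A B) ⟨coc h d, hd⟩ = x := by
  obtain ⟨c, rfl⟩ := cls_surj x
  rw [sha_cls, cls_zero_iff] at hz
  obtain ⟨Q, hQ⟩ := hz
  obtain ⟨R, hR⟩ := div2 h hA hB Q
  obtain ⟨P, hP⟩ : ∃ P, ψ.f (AlgebraicClosure ℚ) P = Q := ⟨φ.f _ R, by rw [h2, hR]⟩
  let c' : Coch (WI A B) := fun σ => c.1 σ - (act (WI A B) σ.toAlgHom P - P)
  have hd : IsCob (WI A B) (c.1 - c') := by
    refine ⟨P, fun σ => ?_⟩
    change c.1 σ - (c.1 σ - (act (WI A B) σ.toAlgHom P - P)) = _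
    abel
  have hsub : c' = c.1 - (c.1 - c') := by abel
  have hbc : c.1 - c' ∈ shaCoc (WI A B) := cob_shaCoc hd
  have hc' : c' ∈ shaCoc (WI A B) := by
    rw [hsub]
    exact sub_mem c.2 hbc
  have hv : ∀ σ, c' σ = 0 ∨ c' σ = T0 h (AlgebraicClosure ℚ) := by
    intro σ
    apply h3
    change ψ.f _ (c.1 σ - (act (WI A B) σ.toAlgHom P - P)) = 0
    have h4 : ψ.f _ (c.1 σ) = act (EQ A B) σ.toAlgHom Q - Q := hQ σ
    rw [map_sub, map_sub, ← ψ.nat, hP, h4, sub_self]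
  obtain ⟨d, hsq, hcd⟩ := coc_of h hc'.1 hv
  rw [hcd] at hc'
  refine ⟨d, ?_, hc', ?_⟩
  · exact mem_SQ h hA hB hsq hc'
  apply cls_eq
  have e1 : coc h d - c.1 = -(c.1 - c') := by
    rw [← hcd]
    abel
  rw [show ((⟨coc h d, hc'⟩ : shaCoc (WI A B)) : Coch (WI A B)) = coc h d from rfl, e1]
  exact cob_neg hd

/-- the order of the kernel -/
theorem ker_card {A B : ℤ} (h : A ≠ B) (hA : A ≠ 0) (hB : B ≠ 0)
    (ψ : NH (WI A B) (EQ A B)) (φ : NH (EQ A B) (WI A B))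
    (h1 : ∀ (L : Type) [Field L] [Algebra ℚ L] (P : Pt (WI A B) L), φ.f L (ψ.f L P) = P + P)
    (h2 : ∀ (L : Type) [Field L] [Algebra ℚ L] (P : Pt (EQ A B) L), ψ.f L (φ.f L P) = P + P)
    (h3 : ∀ (L : Type) [Field L] [Algebra ℚ L] (P : Pt (WI A B) L),
      ψ.f L P = 0 → P = 0 ∨ P = T0 h L) :
    Finite ψ.sha.ker ∧ Nat.card ψ.sha.ker ≤ 2 ^ fo (-(A + B)) (A * B) := by
  classical
  have hb : A * B ≠ 0 := mul_ne_zero hA hB
  have hfin := Pool.Agent.Y500.IS.sqf (-(A + B)) (A * B) hb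
  have hfS : Finite (SQ (-(A + B)) (A * B)) := hfin
  let F : SQ (-(A + B)) (A * B) → Sha (WI A B) := fun d =>
    if hd : coc h d.1 ∈ shaCoc (WI A B) then cls (WI A B) ⟨coc h d.1, hd⟩ else 0
  have hsub : (ψ.sha.ker : Set (Sha (WI A B))) ⊆ Set.range F := by
    intro x hx
    obtain ⟨d, hd, hd', rfl⟩ := ker_coc h hA hB ψ φ h2 h3 x hx
    refine ⟨⟨d, hd⟩, ?_⟩
    simp only [F]
    rw [dif_pos hd']
  have hVfin : (ψ.sha.ker : Set (Sha (WI A B))).Finite := (Set.finite_range F).subset hsub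
  have hVf : Finite ψ.sha.ker := hVfin
  have hcard : Nat.card ψ.sha.ker ≤ (SQ (-(A + B)) (A * B)).ncard := by
    have k1 : (ψ.sha.ker : Set (Sha (WI A B))).ncard ≤ (Set.range F).ncard :=
      Set.ncard_le_ncard hsub (Set.finite_range F)
    have k2 : (Set.range F).ncard ≤ (SQ (-(A + B)) (A * B)).ncard := by
      rw [← Nat.card_coe_set_eq, ← Nat.card_coe_set_eq]
      exact Finite.card_range_le F
    exact k1.trans k2
  have htwo : ∀ x : Sha (WI A B), ψ.sha x = 0 → x + x = 0 := by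
    intro x hx
    obtain ⟨d, -, hd, rfl⟩ := ker_coc h hA hB ψ φ h2 h3 x hx
    rw [← cls_add]
    have k1 : (⟨coc h d, hd⟩ + ⟨coc h d, hd⟩ : shaCoc (WI A B)) = 0 :=
      Subtype.ext (Pool.Agent.TH841.LS.COCf.coc_two h d)
    rw [k1]
    rfl
  have hmod : ∀ x : ψ.sha.ker, 2 • x = 0 := fun x => Subtype.ext (by
    rw [two_nsmul]
    exact htwo x.1 x.2)
  let _ : Module (ZMod 2) ψ.sha.ker := AddCommGroup.zmodModule hmod
  have : Module.Finite (ZMod 2) ψ.sha.ker := Module.Finite.of_finite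
  refine ⟨hVf, ?_⟩
  have k1 : Nat.card ψ.sha.ker = 2 ^ Module.finrank (ZMod 2) ψ.sha.ker := by
    rw [Module.natCard_eq_pow_finrank (K := ZMod 2), Nat.card_zmod]
  rw [k1] at hcard ⊢
  unfold fo
  exact Nat.pow_le_pow_right (by norm_num) (Nat.le_log_of_pow_le (by norm_num) hcard)

/-- **the 2-power torsion of the Tate-Shafarevich group of the 2-isogenous curve** -/
theorem sha_bound {A B : ℤ} (h : A ≠ B) (hA : A ≠ 0) (hB : B ≠ 0) (m : ℕ)
    (hf : Finite (ShaTor (EQ A B) m)) :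
    Finite (ShaTor (WI A B) m) ∧ Nat.card (ShaTor (WI A B) m) ≤
      2 ^ fo (-(A + B)) (A * B) * Nat.card (ShaTor (EQ A B) m) := by
  obtain ⟨ψ, φ, h1, h2, h3⟩ := exists_NH h hA hB
  obtain ⟨k1, k2⟩ := ker_card h hA hB ψ φ h1 h2 h3
  have hT : ({x : Sha (EQ A B) | m • x = 0} : Set (Sha (EQ A B))).Finite := hf
  obtain ⟨g1, g2⟩ := card_le_of_ker ψ.sha k1 (S := {x : Sha (WI A B) | m • x = 0})
    (T := {x : Sha (EQ A B) | m • x = 0}) hT (fun x hx => by
      have hx' : m • x = 0 := hx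
      change m • ψ.sha x = 0
      rw [← map_nsmul, hx', map_zero])
  exact ⟨g1, g2.trans (Nat.mul_le_mul_right _ k2)⟩

/-- the lower bound from an injection -/
theorem le_card {W : WeierstrassCurve ℚ} {k j : ℕ} (hj : 1 ≤ j) (hf : Finite (ShaTor W (2 ^ j)))
    (φ : (Fin k → ZMod 2) →+ Sha W) (hφ : Function.Injective φ) :
    2 ^ k ≤ Nat.card (ShaTor W (2 ^ j)) := by
  have h2 : ∀ y : Fin k → ZMod 2, (2 ^ j) • y = 0 := by
    intro y
    obtain ⟨i, rfl⟩ : ∃ i, j = i + 1 := ⟨j - 1, by omega⟩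
    funext l
    rw [pow_succ, mul_smul, Pi.smul_apply, Pi.smul_apply, Pi.zero_apply, two_nsmul,
      CharTwo.add_self_eq_zero, smul_zero]
  let g : (Fin k → ZMod 2) → ShaTor W (2 ^ j) := fun y => ⟨φ y, by
    rw [← map_nsmul, h2, map_zero]⟩
  have hg : Function.Injective g := fun x y hxy => hφ (congrArg Subtype.val hxy)
  have h3 := Nat.card_le_card_of_injective g hg
  have h4 : Nat.card (Fin k → ZMod 2) = 2 ^ k := by simp
  rwa [h4] at h3

end Pool.Agent.X217.NS
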